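import Pool.Agent.Q46.FR.FinK

/-!
# MP_4a0cc8_nt: the question has a positive answer for all partners of height up to n log n / 180,
uniformly in all quadratic twists of all curves with good reduction outside a given set

Let `K` be a number field and `c`, `b` positive integers. There are a FINITE set `R` of elliptic curves over
`K` and a number `n₀` with the following property. Let `E₀` be ANY QUADRATIC TWIST (by some `d ≠ 0`) of ANY
elliptic curve `y² = x³ + A₀x + B₀` whose discriminant `4A₀³ + 27B₀²` is a unit outside `c`; let `n ≥ 3` be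
an integer without a square factor `p²`, `p > b` prime, and let `E` be ANY elliptic curve over `K` with
`E[n] ≅ E₀[n]`. Then

* the twist of `E` by `d` is isomorphic over `K` to a curve of `R`, and if `n ≥ n₀` then `E` is ISOGENOUS to
  `E₀` (the numbers of points of the reductions agree at all but finitely many places), or
* the height of `j(E)` is at least `n log (n / 16) / 180`; more precisely there is a place `v`, not above
  `6c`, with `n ≤ 16 N(v)³`, at which `j(E)` has a pole of an order `m` with `n ∣ 60 m` (so that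
  `60 h(j(E)) ≥ n log N(v)`), and every prime power `r ∣ n` prime to `v` divides `2 #Ẽ₀(𝔽_v)` or
  `2 (2 N(v) + 2 - #Ẽ₀(𝔽_v))` (level raising), where `Ẽ₀` is the reduction of `y² = x³ + A₀x + B₀`.

So the assertion of Q1 is true for all these `n` and all `E` with `h(j(E)) < n log (n / 16) / 180`, with a
bound `n₀` which depends only on `K`, `b` and `c`; for a fixed curve `E₀` (every curve occurs for some `c`,
second part) the bound is the same for all its quadratic twists. (The first part applied to `c X!` instead
of `c` shows moreover that for every `C` there are only finitely many partners, up to twists, with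
`h(j(E)) ≤ C n`, for all `n ≥ 3` together.)

**Proof.** (1) Let `v` be a place not above `6`, the discriminant of `K`, the primes `≤ max (b, 17)` and `c`.
If `v(j(E)) < 0` then `n ∣ 60 v(j(E))`, also for `v ∣ n` (theorems `FM.loc`, `FM.tameM` of helper673). Else
`E` (twisted by `d`) has good reduction at `v` (`FM.locG`, `FM.tameG`). If there is no such pole the twist of
`E` belongs to a finite set by Shafarevich's theorem (`Q46/FM`).
(2) The relation `φ² - a φ + q = 0` for the Frobenius of an elliptic curve over a finite field with `q`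
elements and the Hasse bound are proved with the degree form on the points of the twisted curve over the field
of rational functions (Manin); with the reduction homomorphism we get `σ² - a_v σ + N(v) = 0` on the
`r`-torsion over `K̄` for a Frobenius element `σ` at a place `v ∤ 2r` of good reduction. On the torsion of a
curve with a pole of `j` at `v` the group of points of level zero is stable under `σ`, and `σ` acts on the
quotient as `± 1` (up to the torsion), which gives the divisibilities in the second alternative; with the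
Hasse bound `n ≤ 16 N(v)³`.
(3) For two curves with good reduction the relation gives `r ∣ 2 (#Ẽ(𝔽_v) - #Ẽ₀(𝔽_v))`; for a pair
of curves with different numbers of points at infinitely many places, two such places of different residue
characteristics bound `n`. As there are finitely many pairs only, this gives `n₀`.
The lemmas of (2) were proved by helpers 14, 16 and 210; the reduction homomorphism is by helper901.
-/

set_option autoImplicit false

open WeierstrassCurve NumberField IsDedekindDomain
open scoped Classical

namespace Pool.Agent.Results.MP_4a0cc8_nt.HeightsUpToNLogN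

section
variable {K : Type} [Field K]

/-- The curve `y² = x³ + Ax + B` over `K`. -/
def curve (A B : K) : WeierstrassCurve K := ⟨0, 0, 0, A, B⟩

/-- The group of its points over the algebraic closure of `K`. -/
abbrev Points (A B : K) : Type := ((curve A B).baseChange (AlgebraicClosure K)).toAffine.Point

/-- The action of a `K`-automorphism `σ` of the algebraic closure on the points. -/
noncomputable def galois (A B : K) (σ : AlgebraicClosure K ≃ₐ[K] AlgebraicClosure K) :
    Points A B →+ Points A B :=
  WeierstrassCurve.Affine.Point.map (σ : AlgebraicClosure K →ₐ[K] AlgebraicClosure K)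

/-- The `n`-torsion of `y² = x³ + Ax + B` and that of `y² = x³ + A'x + B'` are isomorphic as Galois
modules: some map between the groups of points restricts to a bijective additive map of the
`n`-torsion which commutes with the Galois group. -/
def Congruent (n : ℕ) (A B A' B' : K) : Prop :=
  ∃ f : Points A B → Points A' B', (∀ P Q, n • P = 0 → n • Q = 0 → f (P + Q) = f P + f Q) ∧
    Set.BijOn f {P | n • P = 0} {Q | n • Q = 0} ∧
    ∀ (σ : AlgebraicClosure K ≃ₐ[K] AlgebraicClosure K) (P : Points A B), n • P = 0 →
      f (galois A B σ P) = galois A' B' σ (f P)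

/-- The invariant of `y² = x³ + Ax + B`. -/
noncomputable def jInvariant (A B : K) : K := 6912 * A ^ 3 / (4 * A ^ 3 + 27 * B ^ 2)

/-- The curves `y² = x³ + Ax + B` and `y² = x³ + A'x + B'` are isomorphic over `K`. -/
def Isomorphic (A B A' B' : K) : Prop := ∃ t : K, t ≠ 0 ∧ A' = t ^ 4 * A ∧ B' = t ^ 6 * B

end

section
variable {K : Type} [Field K] [NumberField K]

/-- The number of points, with the point at infinity, of the reduction of `y² = x³ + Ax + B`
modulo `v`. -/
noncomputable def numPoints (v : HeightOneSpectrum (𝓞 K)) (A B : 𝓞 K) : ℕ :=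
  1 + Nat.card {P : (𝓞 K ⧸ v.asIdeal) × (𝓞 K ⧸ v.asIdeal) // P.2 ^ 2 =
    P.1 ^ 3 + Ideal.Quotient.mk v.asIdeal A * P.1 + Ideal.Quotient.mk v.asIdeal B}

/-- The reductions of the two curves have the same number of points at all but finitely many places.
By Faltings' theorem the curves are isogenous over `K` if and only if this holds. -/
def Isogenous (A B A' B' : 𝓞 K) : Prop :=
  {v : HeightOneSpectrum (𝓞 K) | numPoints v A B ≠ numPoints v A' B'}.Finite

/-- `4A³ + 27B²` is a unit outside the places above `c`. -/
def UnitOutside (c : ℕ) (A B : 𝓞 K) : Prop :=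
  ∀ v : HeightOneSpectrum (𝓞 K), (c : 𝓞 K) ∉ v.asIdeal → 4 * A ^ 3 + 27 * B ^ 2 ∉ v.asIdeal

/-- The second alternative: `j` has a pole of an order `m` with `n ∣ 60 m` at a place `v` not above
`6c` with `n ≤ 16 N(v)³`, and every prime power `r ∣ n` prime to `v` divides `2 N` or
`2 (2 N(v) + 2 - N)`, where `N` is the number of points of `y² = x³ + A₀x + B₀` modulo `v`. -/
def RaisedPole (c n : ℕ) (A₀ B₀ : 𝓞 K) (j : K) : Prop :=
  ∃ v : HeightOneSpectrum (𝓞 K), ((6 * c : ℕ) : 𝓞 K) ∉ v.asIdeal ∧
    n ≤ 16 * Ideal.absNorm v.asIdeal ^ 3 ∧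
    (∃ m : ℕ, 0 < m ∧ n ∣ 60 * m ∧ v.valuation K j = WithZero.exp (m : ℤ)) ∧
    ∀ r : ℕ, IsPrimePow r → r ∣ n → (r : 𝓞 K) ∉ v.asIdeal →
      (r : ℤ) ∣ 2 * (numPoints v A₀ B₀ : ℤ) ∨
        (r : ℤ) ∣ 2 * (2 * (Ideal.absNorm v.asIdeal : ℤ) + 2 - numPoints v A₀ B₀)

end

/-- **Partners of height less than `n log (n / 16) / 180` are isogenous, uniformly in quadratic twists.**
(1) For all `c`, `b` there are a finite set `R` of curves and a number `n₀` such that for all `A₀, B₀`
with `4A₀³ + 27B₀²` a unit outside `c`, all `d ≠ 0`, all curves `E` congruent modulo some `n ≥ 3` (not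
divisible by `p²` for primes `p > b`) to the twist `y² = x³ + A₀d²x + B₀d³`: either the twist of `E` by `d`
is isomorphic to a curve of `R` and, if `n ≥ n₀`, `E` is isogenous to `y² = x³ + A₀d²x + B₀d³`; or
`n log (n / 16) ≤ 180 h(j(E))` and there is a pole with level raising. (2) Every curve over `K` occurs for
some `c`. -/
theorem result (K : Type) [Field K] [NumberField K] :
    (∀ c b : ℕ, 0 < c → ∃ (R : Finset (K × K)) (n₀ : ℕ),
      ∀ A₀ B₀ : 𝓞 K, 4 * A₀ ^ 3 + 27 * B₀ ^ 2 ≠ 0 → UnitOutside c A₀ B₀ →
      ∀ d A B : 𝓞 K, d ≠ 0 → 4 * A ^ 3 + 27 * B ^ 2 ≠ 0 → ∀ n : ℕ, 3 ≤ n →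
        (∀ p : ℕ, p.Prime → b < p → ¬ p ^ 2 ∣ n) →
        Congruent n (A : K) (B : K) ((A₀ : K) * (d : K) ^ 2) ((B₀ : K) * (d : K) ^ 3) →
          ((∃ e ∈ R, Isomorphic e.1 e.2 ((A : K) * (d : K) ^ 2) ((B : K) * (d : K) ^ 3)) ∧
              (n₀ ≤ n → Isogenous A B (A₀ * d ^ 2) (B₀ * d ^ 3))) ∨
            (n * Real.log (n / 16) ≤ 180 * Height.logHeight₁ (jInvariant (A : K) (B : K)) ∧
              RaisedPole c n A₀ B₀ (jInvariant (A : K) (B : K)))) ∧
    (∀ A₀ B₀ : 𝓞 K, 4 * A₀ ^ 3 + 27 * B₀ ^ 2 ≠ 0 → ∃ c : ℕ, 0 < c ∧ UnitOutside c A₀ B₀) := by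
  refine ⟨fun c b hc => ?_, fun A₀ B₀ h => Pool.Agent.Q46.FR.exists_out A₀ B₀ h⟩
  obtain ⟨R, n₀, hR⟩ := Pool.Agent.Q46.FR.asm2 K c b hc
  refine ⟨R, n₀, fun A₀ B₀ hD₀ hg d A B hd hD n hn hsq hf => ?_⟩
  obtain ⟨f, h1, h2, h3⟩ := hf
  rcases hR A₀ B₀ hD₀ hg d A B hd hD n hn hsq f ⟨h1, h2, h3⟩ with h | ⟨v, hv⟩
  · exact Or.inl h
  · obtain ⟨k1, k2, k3, k4, k5⟩ := hv.num hg (by omega) hsq
    exact Or.inr ⟨k1, v, k2, k3, k4, k5⟩

end Pool.Agent.Results.MP_4a0cc8_nt.HeightsUpToNLogN
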