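import Pool.Agent.Q138.PS.WO
import Pool.Agent.Q138.PS.WQ
import Pool.Agent.Q138.AJ.R4a0cc8
import Pool.Agent.Q46.FR.Asm2

/-!
# Isomorphic torsion and isogeny: the curves with invariants close to given points

Let `K` be a number field, `Y` a metric space and `p : K → Y` any map (for instance the embedding of `K` in one of its
completions). `H(j)` is the height relative to `K`. There is a set `Z ⊆ Y` of Hausdorff dimension ZERO such that for every
`z ∈ Y` outside `Z`, every `τ > 0` and every `c`, for the elliptic curves `E` over `K` with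
`dist (p (j(E)), z) ≤ c H(j(E)) ^ (-τ)`:

(1) There is `N` such that for EVERY elliptic curve `E₀` over `K` there are, up to isomorphism over `K`, only finitely many such
`E` with `E[n] ≅ E₀[n]` for some integer `n ≥ N`.

(2) (The answer to Q1 for these curves.) For every elliptic curve `E₀` over `K` there is `n₀` such that for ALL such `E` and all
integers `n ≥ n₀`, if `E[n] ≅ E₀[n]` then `E` and `E₀` have the same number of points modulo all but finitely many places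
(equivalently, they are isogenous, by Faltings' theorem).
-/

set_option autoImplicit false

namespace Pool.Agent.Results.MP_4a0cc8_nt.InvariantsNearGivenPoints

open NumberField IsDedekindDomain Pool.Agent.Q138.PS Pool.Agent.Q138.AJ.R4a0cc8

section
variable {K : Type} [Field K] [NumberField K]

/-- The number of points, with the point at infinity, of the reduction of `y² = x³ + Ax + B`
modulo `v`. -/
noncomputable def numPoints (v : HeightOneSpectrum (𝓞 K)) (A B : 𝓞 K) : ℕ :=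
  1 + Nat.card {P : (𝓞 K ⧸ v.asIdeal) × (𝓞 K ⧸ v.asIdeal) // P.2 ^ 2 =
    P.1 ^ 3 + Ideal.Quotient.mk v.asIdeal A * P.1 + Ideal.Quotient.mk v.asIdeal B}

/-- The reductions of the two curves have the same number of points at all but finitely many places.
By Faltings' theorem the curves are isogenous over `K` if and only if this holds. -/
def Isogenous (A B A' B' : 𝓞 K) : Prop :=
  {v : HeightOneSpectrum (𝓞 K) | numPoints v A B ≠ numPoints v A' B'}.Finite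

/-- The elements of `K` whose images are within `c H(t) ^ (-τ)` of `z`. -/
def Near {Y : Type} [MetricSpace Y] (p : K → Y) (z : Y) (c τ : ℝ) : Set K :=
  {t | dist (p t) z ≤ c * Height.mulHeight₁ t ^ (-τ)}

end

section
variable {K : Type} [Field K]

/-- the equations of elliptic curves -/
abbrev Eqn (K : Type) [Field K] : Type := {e : K × K // 4 * e.1 ^ 3 + 27 * e.2 ^ 2 ≠ 0}

theorem iso_refl (A B : K) : Isomorphic A B A B := ⟨1, one_ne_zero, by ring, by ring⟩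

theorem iso_symm {A B A' B' : K} (h : Isomorphic A B A' B') : Isomorphic A' B' A B := by
  obtain ⟨t, ht, hA, hB⟩ := h
  exact ⟨t⁻¹, inv_ne_zero ht, by rw [hA]; field_simp, by rw [hB]; field_simp⟩

theorem iso_trans {A B A' B' A'' B'' : K} (h : Isomorphic A B A' B') (h' : Isomorphic A' B' A'' B'') :
    Isomorphic A B A'' B'' := by
  obtain ⟨t, ht, hA, hB⟩ := h
  obtain ⟨s, hs, hA', hB'⟩ := h'
  exact ⟨s * t, mul_ne_zero hs ht, by rw [hA', hA]; ring, by rw [hB', hB]; ring⟩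

theorem iso_j {A B A' B' : K} (h : Isomorphic A B A' B') : jInvariant A' B' = jInvariant A B := by
  obtain ⟨t, ht, rfl, rfl⟩ := h
  unfold jInvariant
  have e : 4 * (t ^ 4 * A) ^ 3 + 27 * (t ^ 6 * B) ^ 2 = t ^ 12 * (4 * A ^ 3 + 27 * B ^ 2) := by ring
  rw [e, show 6912 * (t ^ 4 * A) ^ 3 = t ^ 12 * (6912 * A ^ 3) by ring, mul_div_mul_left _ _ (pow_ne_zero 12 ht)]

/-- isomorphism of equations -/
instance iso (K : Type) [Field K] : Setoid (Eqn K) where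
  r e e' := Isomorphic e.1.1 e.1.2 e'.1.1 e'.1.2
  iseqv := ⟨fun e => iso_refl _ _, fun h => iso_symm h, fun h h' => iso_trans h h'⟩

/-- the isomorphism classes -/
abbrev Cls (K : Type) [Field K] : Type := Quotient (iso K)

end

section
variable {K : Type} [Field K] [NumberField K]

open scoped Classical in
theorem congruent_iso {n : ℕ} {A B A' B' A₀ B₀ : K} (h : Congruent n A B A₀ B₀) (hi : Isomorphic A B A' B') :
    Congruent n A' B' A₀ B₀ := by
  obtain ⟨f, h1, h2, h3⟩ := h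
  obtain ⟨f', k1, k2, k3⟩ := Pool.Agent.Q46.FR.cong_iso (f := f) ⟨h1, h2, h3⟩ hi (iso_refl A₀ B₀)
  exact ⟨f', k1, k2, k3⟩

/-- the exceptional classes -/
def E (q : 𝓞 K × 𝓞 K) (N : ℕ) : Set (Cls K) :=
  {s | ∃ n : ℕ, N ≤ n ∧ Congruent n s.out.1.1 s.out.1.2 (q.1 : K) (q.2 : K)}

theorem out_iso (e : Eqn K) : Isomorphic (Quotient.mk (iso K) e).out.1.1 (Quotient.mk (iso K) e).out.1.2 e.1.1 e.1.2 :=
  Quotient.exact (Quotient.out_eq (Quotient.mk (iso K) e))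

theorem mem_E {q : 𝓞 K × 𝓞 K} {N n : ℕ} (hn : N ≤ n) {e : Eqn K} (h : Congruent n e.1.1 e.1.2 (q.1 : K) (q.2 : K)) :
    Quotient.mk (iso K) e ∈ E q N := ⟨n, hn, congruent_iso h (iso_symm (out_iso e))⟩

theorem count (ε : ℝ) (hε : 0 < ε) : ∃ N : ℕ, ∀ i : {q : 𝓞 K × 𝓞 K // 4 * q.1 ^ 3 + 27 * q.2 ^ 2 ≠ 0}, ∃ C : ℝ, ∀ T, 1 ≤ T →
    {s | s ∈ E i.1 N ∧ Height.mulHeight₁ (jInvariant s.out.1.1 s.out.1.2) ≤ T}.Finite ∧
    (({s | s ∈ E i.1 N ∧ Height.mulHeight₁ (jInvariant s.out.1.1 s.out.1.2) ≤ T}).ncard : ℝ) ≤ C * T ^ ε := by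
  classical
  obtain ⟨n₀, h⟩ := Pool.Agent.Q138.AJ.R4a0cc8.result (Module.finrank ℚ K) ε hε
  obtain ⟨C, κ, h⟩ := h K rfl
  refine ⟨n₀, fun i => ⟨C * |((Algebra.norm ℤ (4 * i.1.1 ^ 3 + 27 * i.1.2 ^ 2) : ℤ) : ℝ)| ^ κ, fun T hT => ?_⟩⟩
  refine Pool.Agent.Y673.Cnt.ncard_le_of _ _ fun S hS => ?_
  have hinj : Function.Injective fun s : Cls K => s.out.1 := by
    intro s s' hss
    have h1 : s.out = s'.out := Subtype.ext hss
    exact Quotient.out_injective h1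
  have hcard : (S.image fun s : Cls K => s.out.1).card = S.card := Finset.card_image_of_injective S hinj
  rw [← hcard]
  refine h i.1.1 i.1.2 i.2 T hT _ ?_ ?_
  · intro e he e' he' hee
    obtain ⟨s, hs, rfl⟩ := Finset.mem_image.1 he
    obtain ⟨s', hs', rfl⟩ := Finset.mem_image.1 he'
    have h1 : s.out ≈ s'.out := hee
    have h2 : s = s' := by
      rw [← Quotient.out_eq s, ← Quotient.out_eq s']
      exact Quotient.sound h1
    rw [h2]
  · intro e he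
    obtain ⟨s, hs, rfl⟩ := Finset.mem_image.1 he
    obtain ⟨h1, h2⟩ := hS (Finset.mem_coe.2 hs)
    exact ⟨s.out.2, h2, h1⟩

theorem disc_coe {A B : 𝓞 K} (h : 4 * A ^ 3 + 27 * B ^ 2 ≠ 0) : 4 * (A : K) ^ 3 + 27 * (B : K) ^ 2 ≠ 0 := by
  intro h0
  apply h
  apply RingOfIntegers.coe_injective
  simp only [map_add, map_mul, map_pow, map_ofNat, map_zero]
  exact h0

open scoped Classical in
/-- one class: a bound for the level -/
theorem level (q : 𝓞 K × 𝓞 K) (hq : 4 * q.1 ^ 3 + 27 * q.2 ^ 2 ≠ 0) (s : Cls K) : ∃ M : ℕ, ∀ (A B : 𝓞 K)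
    (hD : 4 * A ^ 3 + 27 * B ^ 2 ≠ 0), Quotient.mk (iso K) ⟨((A : K), (B : K)), disc_coe hD⟩ = s → ∀ n : ℕ, 1 ≤ n → M < n →
      Congruent n (A : K) (B : K) (q.1 : K) (q.2 : K) → Isogenous A B q.1 q.2 := by
  by_cases hP : ∃ (A B : 𝓞 K) (hD : 4 * A ^ 3 + 27 * B ^ 2 ≠ 0), Quotient.mk (iso K) ⟨((A : K), (B : K)), disc_coe hD⟩ = s ∧
      ¬ Isogenous A B q.1 q.2
  · obtain ⟨A', B', hD', hs', hno⟩ := hP
    obtain ⟨M, hM⟩ := Pool.Agent.Q46.FR.bound_pair A' B' q.1 q.2 hD' hq hno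
    refine ⟨M, fun A B hD hs n hn hMn hc => ?_⟩
    have h1 : Isomorphic (A : K) (B : K) (A' : K) (B' : K) := Quotient.exact (hs.trans hs'.symm)
    obtain ⟨f, k1, k2, k3⟩ := congruent_iso hc h1
    have := hM n hn f ⟨k1, k2, k3⟩
    omega
  · refine ⟨0, fun A B hD hs n hn hMn hc => ?_⟩
    by_contra hcon
    exact hP ⟨A, B, hD, hs, hcon⟩

end

/-- **Theorem.** -/
theorem result (K : Type) [Field K] [NumberField K] (Y : Type) [MetricSpace Y] [MeasurableSpace Y] [BorelSpace Y] (p : K → Y) :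
    ∃ Z : Set Y, dimH Z = 0 ∧ ∀ z, z ∉ Z → ∀ τ c : ℝ, 0 < τ →
      (∃ N : ℕ, ∀ A₀ B₀ : 𝓞 K, 4 * A₀ ^ 3 + 27 * B₀ ^ 2 ≠ 0 → ∃ R : Finset (K × K), ∀ A B : K, 4 * A ^ 3 + 27 * B ^ 2 ≠ 0 →
        jInvariant A B ∈ Near p z c τ → ∀ n : ℕ, N ≤ n → Congruent n A B (A₀ : K) (B₀ : K) →
          ∃ e ∈ R, Isomorphic e.1 e.2 A B) ∧
      ∀ A₀ B₀ : 𝓞 K, 4 * A₀ ^ 3 + 27 * B₀ ^ 2 ≠ 0 → ∃ n₀ : ℕ, ∀ A B : 𝓞 K, 4 * A ^ 3 + 27 * B ^ 2 ≠ 0 →
        jInvariant (A : K) (B : K) ∈ Near p z c τ → ∀ n : ℕ, n₀ ≤ n → Congruent n (A : K) (B : K) (A₀ : K) (B₀ : K) →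
          Isogenous A B A₀ B₀ := by
  classical
  have hK := countable_field K
  have hO : Countable (𝓞 K) := RingOfIntegers.coe_injective.countable
  obtain ⟨Z, hZ, hz⟩ := fin_eps_all (J := {q : 𝓞 K × 𝓞 K // 4 * q.1 ^ 3 + 27 * q.2 ^ 2 ≠ 0})
    (fun s : Cls K => p (jInvariant s.out.1.1 s.out.1.2)) (fun i N => E i.1 N)
    (fun s => Height.mulHeight₁ (jInvariant s.out.1.1 s.out.1.2)) (fun s => Height.one_le_mulHeight₁ _) count
  refine ⟨Z, hZ, fun z hzZ τ c hτ => ?_⟩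
  obtain ⟨N, hN⟩ := hz z hzZ τ c hτ
  have hmem : ∀ (q : {q : 𝓞 K × 𝓞 K // 4 * q.1 ^ 3 + 27 * q.2 ^ 2 ≠ 0}) (e : Eqn K) (n : ℕ), N ≤ n →
      jInvariant e.1.1 e.1.2 ∈ Near p z c τ → Congruent n e.1.1 e.1.2 (q.1.1 : K) (q.1.2 : K) →
      Quotient.mk (iso K) e ∈ (hN q).toFinset := by
    intro q e n hn hj hc
    rw [Set.Finite.mem_toFinset]
    refine ⟨mem_E hn hc, ?_⟩
    have h1 : jInvariant (Quotient.mk (iso K) e).out.1.1 (Quotient.mk (iso K) e).out.1.2 = jInvariant e.1.1 e.1.2 :=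
      (iso_j (out_iso e)).symm
    show dist (p (jInvariant (Quotient.mk (iso K) e).out.1.1 (Quotient.mk (iso K) e).out.1.2)) z ≤ _
    rw [h1]
    exact hj
  refine ⟨⟨N, fun A₀ B₀ hD₀ => ⟨(hN ⟨(A₀, B₀), hD₀⟩).toFinset.image fun s : Cls K => s.out.1, ?_⟩⟩, ?_⟩
  · intro A B hD hj n hn hc
    have h1 := hmem ⟨(A₀, B₀), hD₀⟩ ⟨(A, B), hD⟩ n hn hj hc
    exact ⟨_, Finset.mem_image_of_mem _ h1, out_iso (K := K) ⟨(A, B), hD⟩⟩
  · intro A₀ B₀ hD₀
    have hM := fun s : Cls K => level (A₀, B₀) hD₀ s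
    choose M hM using hM
    refine ⟨N + (∑ s ∈ (hN ⟨(A₀, B₀), hD₀⟩).toFinset, M s) + 1, fun A B hD hj n hn hc => ?_⟩
    have h1 := hmem ⟨(A₀, B₀), hD₀⟩ ⟨((A : K), (B : K)), disc_coe hD⟩ n (by omega) hj hc
    have h2 : M (Quotient.mk (iso K) ⟨((A : K), (B : K)), disc_coe hD⟩) ≤ ∑ s ∈ (hN ⟨(A₀, B₀), hD₀⟩).toFinset, M s :=
      Finset.single_le_sum (f := M) (fun _ _ => Nat.zero_le _) h1
    exact hM _ A B hD rfl n (by omega) (by omega) hc

end Pool.Agent.Results.MP_4a0cc8_nt.InvariantsNearGivenPoints
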