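import Mathlib
import Pool.Agent.Q103.FMS.Main

/-!
# No curve with an invariant composed of numbers with small digits is congruent to a given curve
# modulo any large number, over all number fields at once

Let `t` be an integer of a number field `K` all of whose conjugates are at least `T` in absolute
value (the base). The invariant `j ∈ K` is composed of numbers with small digits in the base `t` if
`(j : 1728 - j : -1728)` has coordinates `b k * ∏ i, F i (t) ^ e k i` with pairwise coprime numbers
`F i (t)` with small digits, at most `D` in all, small `b k`, and exponents at most `T ^ δ`, and the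
product of the `F i (t)` which occur with different exponents in the coordinates is squarefree. These
are the invariants of the elliptic curves for which `c₄`, `c₆` and `Δ` are such products, since
`c₄ ^ 3 - c₆ ^ 2 = 1728 Δ`.

We show: there is an ABSOLUTE constant `n₀` such that for every number field `K` and every elliptic
curve `E₀` over `K`, no elliptic curve over `K` (no twist) with an invariant of this kind in a base
`t` whose conjugates are large in terms of `D` and with
`log |N(t)| > (1 + ε) (log R₀ + log |D_K|)`, `R₀` the product of the norms of the places at which an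
equation of `E₀` is bad, is congruent to `E₀` modulo any `n ≥ n₀`, or any `n` with a prime factor
`p ≥ 17`. Moreover all curves `E₀` congruent to a curve `E` of this kind have
`R₀ |D_K| ≥ H(j(E)) ^ (1 / 6 - 1 / P) |N(t)| ^ (1 - ε)`, if `n` is large in terms of `P` only, or has a
prime factor `p ≥ max (17, P)`.

Proof: by local theorems of helper673 (starting library), at the places outside `R₀`, the primes
which are small in terms of `P` and the places with `v(p) ≥ 2`, the curve `E` has good reduction or
a pole of `j` of order at least `P`. The places with `v(p) ≥ 2` divide the different. But by the abc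
inequality for the point `(j : 1728 - j : -1728)` and the divisibility of the zeros of `j` and
`j - 1728` at the good places the poles and the additive places of `E` have a product of norms of
at least `H(j) ^ (1 / 6) |N(t)| ^ (1 - ε)`.
-/

set_option autoImplicit false

open WeierstrassCurve NumberField IsDedekindDomain Polynomial
open scoped Classical
open Pool.Agent.Results.MP_a793bb_nt.SmallDigitPoints (Small point unequal)

namespace Pool.Agent.Results.MP_4a0cc8_nt.SmallDigitInvariants

section
variable {K : Type} [Field K]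

/-- The curve `y² = x³ + Ax + B` over `K`. -/
def curve (A B : K) : WeierstrassCurve K := ⟨0, 0, 0, A, B⟩

/-- The group of its points over the algebraic closure of `K`. -/
abbrev Points (A B : K) : Type := ((curve A B).baseChange (AlgebraicClosure K)).toAffine.Point

/-- The action of a `K`-automorphism `σ` of the algebraic closure on the points. -/
noncomputable def galois (A B : K) (σ : AlgebraicClosure K ≃ₐ[K] AlgebraicClosure K) :
    Points A B →+ Points A B :=
  WeierstrassCurve.Affine.Point.map (σ : AlgebraicClosure K →ₐ[K] AlgebraicClosure K)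

/-- The `n`-torsion of `y² = x³ + Ax + B` and that of `y² = x³ + A'x + B'` are isomorphic as Galois
modules: some map between the groups of points restricts to a bijective additive map of the
`n`-torsion which commutes with the Galois group. -/
def Congruent (n : ℕ) (A B A' B' : K) : Prop :=
  ∃ f : Points A B → Points A' B', (∀ P Q, n • P = 0 → n • Q = 0 → f (P + Q) = f P + f Q) ∧
    Set.BijOn f {P | n • P = 0} {Q | n • Q = 0} ∧
    ∀ (σ : AlgebraicClosure K ≃ₐ[K] AlgebraicClosure K) (P : Points A B), n • P = 0 →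
      f (galois A B σ P) = galois A' B' σ (f P)

/-- The invariant of `y² = x³ + Ax + B`. -/
noncomputable def jInvariant (A B : K) : K := 6912 * A ^ 3 / (4 * A ^ 3 + 27 * B ^ 2)

end

section
variable {K : Type} [Field K] [NumberField K]

/-- The equation `y² = x³ + Ax + B` is integral at the place `v` and its discriminant is a unit at
`v` (up to the factor `-16`). -/
def GoodEquation (v : HeightOneSpectrum (𝓞 K)) (A B : K) : Prop :=
  v.valuation K A ≤ 1 ∧ v.valuation K B ≤ 1 ∧ v.valuation K (4 * A ^ 3 + 27 * B ^ 2) = 1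

/-- the product of the norms of the places at which the equation is not good -/
noncomputable def badNorm (A B : K) : ℝ :=
  ∏ᶠ v ∈ {v : HeightOneSpectrum (𝓞 K) | ¬ GoodEquation v A B}, (Ideal.absNorm v.asIdeal : ℝ)

/-- The invariant `j` is composed of numbers with small digits in the base `t`: up to a common factor
`s` the numbers `j`, `1728 - j` and `- 1728` are products `b k * ∏ i, F i (t) ^ e k i` as in `Small`,
not all exponent vectors are the same, and the product of the `F i (t)` with different exponents is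
squarefree. -/
def Composed (D : ℕ) (δ T : ℝ) (t : 𝓞 K) (j : K) : Prop :=
  ∃ (n : ℕ) (F : Fin n → (𝓞 K)[X]) (b : Fin 3 → 𝓞 K) (e : Fin 3 → Fin n → ℕ) (s : K),
    Small D δ T t F b e ∧ (unequal e).Nonempty ∧
    Squarefree (Ideal.span {∏ i ∈ unequal e, (F i).eval t}) ∧ s ≠ 0 ∧
    (point t F b e 0 : K) = s * j ∧ (point t F b e 1 : K) = s * (1728 - j) ∧
    (point t F b e 2 : K) = -(s * 1728)

/-- `log |N_{K/ℚ}(t)|` -/
noncomputable def logNorm (t : 𝓞 K) : ℝ :=
  Real.log |((Algebra.norm ℚ (t : K) : ℚ) : ℝ)|

/-- The levels: all `n ≥ n₀` and all multiples of a prime `p ≥ max (17, P)`. -/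
def Level (P n₀ n : ℕ) : Prop := n₀ ≤ n ∨ ∃ p : ℕ, p.Prime ∧ 17 ≤ p ∧ P ≤ p ∧ p ∣ n

open Pool.Agent.Y673.Loc Pool.Agent.Y673.Loc.ZV Pool.Agent.Q103.FMS in
theorem good_iff (v : HeightOneSpectrum (𝓞 K)) {A B : K} (hD : 4 * A ^ 3 + 27 * B ^ 2 ≠ 0) :
    GoodEquation v A B ↔ GoodEq v A B := by
  have key : ∀ x : K, v.valuation K x ≤ 1 ↔ (adv K v).G 0 x := by
    intro x
    by_cases hx : x = 0
    · subst hx
      simp [ZV.G]
    · have hx' : v.valuation K x ≠ 0 := (Valuation.ne_zero_iff _).2 hx
      have e : (adv K v).v x = -WithZero.log (v.valuation K x) := rfl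
      constructor
      · intro h
        right
        rw [e, neg_nonneg]
        have := WithZero.log_le_log hx' one_ne_zero |>.2 h
        rwa [WithZero.log_one] at this
      · rintro (h | h)
        · exact absurd h hx
        · rw [e, neg_nonneg] at h
          rw [← WithZero.log_le_log hx' one_ne_zero, WithZero.log_one]
          exact h
  unfold GoodEquation GoodEq
  rw [key, key]
  have hx' : v.valuation K (4 * A ^ 3 + 27 * B ^ 2) ≠ 0 := (Valuation.ne_zero_iff _).2 hD
  have e : (adv K v).v (4 * A ^ 3 + 27 * B ^ 2) =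
      -WithZero.log (v.valuation K (4 * A ^ 3 + 27 * B ^ 2)) := rfl
  have h3 : v.valuation K (4 * A ^ 3 + 27 * B ^ 2) = 1 ↔
      (adv K v).v (4 * A ^ 3 + 27 * B ^ 2) = 0 := by
    rw [e, neg_eq_zero]
    constructor
    · intro h
      rw [h, WithZero.log_one]
    · intro h
      rw [← WithZero.exp_log hx', h, WithZero.exp_zero]
  rw [h3]

/-- **Main theorem.** For every `P ≥ 7` there is `n₀` such that for all `D` and `0 < ε ≤ 1` there are
`δ > 0` and `T₀` such that for all `T ≥ T₀`, all number fields `K`, all bases `t`, all elliptic curves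
`E : y² = x³ + Ax + B` over `K` whose invariant is composed of numbers with small digits, and all
elliptic curves `E₀ : y² = x³ + A₀x + B₀` over `K`:
(1) if `E[n] ≅ E₀[n]` for some `n ≥ n₀`, or some `n` with a prime factor `p ≥ max (17, P)`, then
`(1 / 6 - 1 / P) h(j(E)) + (1 - ε) log |N(t)| ≤ log (badNorm E₀) + log |D_K|`;
(2) if `log (badNorm E₀) + log |D_K| < (1 - ε) [K : ℚ] log T`, then `E[n]` and `E₀[n]` are not
isomorphic for any such `n`. -/
theorem result (P : ℕ) (hP : 7 ≤ P) : ∃ n₀ : ℕ, ∀ (D : ℕ) (ε : ℝ), 0 < ε → ε ≤ 1 →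
    ∃ δ : ℝ, 0 < δ ∧ ∃ T₀ : ℝ, 1 ≤ T₀ ∧
    ∀ T : ℝ, T₀ ≤ T → ∀ (K : Type) [Field K] [NumberField K] (t : 𝓞 K) (A B : K),
      4 * A ^ 3 + 27 * B ^ 2 ≠ 0 → Composed D δ T t (jInvariant A B) →
      ∀ A₀ B₀ : K, 4 * A₀ ^ 3 + 27 * B₀ ^ 2 ≠ 0 →
        (∀ n : ℕ, Level P n₀ n → Congruent n A B A₀ B₀ →
          (1 / 6 - 1 / (P : ℝ)) * Height.logHeight₁ (jInvariant A B) + (1 - ε) * logNorm t ≤
            Real.log (badNorm A₀ B₀) + Real.log |(discr K : ℝ)|) ∧
        (Real.log (badNorm A₀ B₀) + Real.log |(discr K : ℝ)| <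
            (1 - ε) * (Module.finrank ℚ K * Real.log T) →
          ∀ n : ℕ, Level P n₀ n → ¬ Congruent n A B A₀ B₀) := by
  obtain ⟨n₀, h⟩ := Pool.Agent.Q103.FMS.main_ineq P hP
  refine ⟨n₀, ?_⟩
  intro D ε hε hε1
  obtain ⟨δ, hδ, T₀, hT₀, h⟩ := h D ε hε
  refine ⟨δ, hδ, T₀, hT₀, ?_⟩
  intro T hT K _ _ t A B hD hj A₀ B₀ hD₀
  obtain ⟨m, F, b, e, s, h1, h2, h3, hs, e0, e1, e2⟩ := hj
  have hbad : badNorm A₀ B₀ = Pool.Agent.Q103.FMS.badEq A₀ B₀ := by
    unfold badNorm Pool.Agent.Q103.FMS.badEq
    have e : {v : HeightOneSpectrum (𝓞 K) | ¬ GoodEquation v A₀ B₀} =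
        {v : HeightOneSpectrum (𝓞 K) | ¬ Pool.Agent.Q103.FMS.GoodEq v A₀ B₀} := by
      ext v
      exact not_congr (good_iff v hD₀)
    rw [e]
  have key : ∀ n : ℕ, Level P n₀ n → Congruent n A B A₀ B₀ →
      Module.finrank ℚ K * Real.log T ≤ logNorm t ∧
      (1 / 6 - 1 / (P : ℝ)) * Height.logHeight₁ (jInvariant A B) + (1 - ε) * logNorm t ≤
        Real.log (badNorm A₀ B₀) + Real.log |(discr K : ℝ)| := by
    rintro n hn ⟨f, f1, f2, f3⟩
    rw [hbad]
    exact h T hT K t (point t F b e) ⟨m, F, b, e, h1, h2, h3, rfl⟩ A B hD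
      ⟨s, hs, e0, e1, e2⟩ A₀ B₀ hD₀ n hn f ⟨f1, f2, f3⟩
  refine ⟨fun n hn hc => (key n hn hc).2, ?_⟩
  intro hlt n hn hc
  obtain ⟨k1, k2⟩ := key n hn hc
  have hPR : (7 : ℝ) ≤ P := by exact_mod_cast hP
  have h4 : 0 ≤ (1 / 6 - 1 / (P : ℝ)) * Height.logHeight₁ (jInvariant A B) := by
    apply mul_nonneg
    · have : 1 / (P : ℝ) ≤ 1 / 7 := one_div_le_one_div_of_le (by norm_num) hPR
      linarith
    · exact Height.zero_le_logHeight₁ _
  have h5 : (1 - ε) * (Module.finrank ℚ K * Real.log T) ≤ (1 - ε) * logNorm t :=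
    mul_le_mul_of_nonneg_left k1 (by linarith)
  linarith

end

end Pool.Agent.Results.MP_4a0cc8_nt.SmallDigitInvariants
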