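import Pool.Agent.Q13.FS.Fields2

/-!
# MP_4a0cc8_nt: 100% of the curves `E₀` over `ℚ` against all curves over number fields whose invariant
has a denominator in a sparse set

Let `E₀ : y² = x³ + Ax + B` be an elliptic curve over `ℚ`; the curves are ordered by height (the box
`|A| ≤ T²`, `|B| ≤ T³` has about `4 T⁵` elements).  We consider all primes `ℓ ≥ 13`, all number fields `L`
whose degree is prime to `ℓ` and less than `(ℓ² - 1)/8` (for instance all `L` of degree less than `ℓ`)
and all elliptic curves `E'` over `L`.  If `E'[ℓ]` and the `ℓ`-torsion of `E₀`, or of a twist of `E₀` over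
`L`, are isomorphic Galois modules over `L`, then the two curves have the same `ℓ`-division field
(part 3).  We call `E'` a partner of `E₀` if `E'` and some twist of `E₀` over `L` have the same
`ℓ`-division field.  An integer `d ≠ 0` is a denominator of `E'` if `d j(E')` is an algebraic integer;
there is no other condition on `j(E')`, and `d` can be any multiple of the exact denominator.

(1) For all `c, K, ε > 0` and all large `T`, for EVERY set `D` of at most `T^(5-c)` nonzero integers of
absolute value at most `T^K`: all but a proportion `ε` of the curves `E₀` of the box have no partner with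
a denominator in `D`, for any `ℓ` and `L` as above.  How large `T` must be does not depend on `D`.
This is optimal: the discriminants of all curves of the box are denominators of their own invariants,
and there are about `T⁵` of them.

(2) If a set `S` of positive integers has at most `C X^β` elements up to `X` and `6 β θ < 5`, then 100% of
the curves `E₀` have no partner with a denominator `d` in `S`, `d ≤ H(E₀)^θ`.  For example, for the
`k`-th powers `β = 1/k` and `θ < 5k/6`; for the `y`-smooth numbers, `y` fixed, `θ` is arbitrary.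

The starting file `AllFieldsOfSmallDegree` (conductors) says that a partner has almost the same conductor
or a larger one; here the invariant of a partner avoids every sparse set of denominators, of any
polynomial size.  The file `EveryNumberField` fixes the primes of bad reduction of the second curve.

Proof.  Let `q ≥ 5` be a prime which divides `D₀ = 4A³ + 27B²` exactly once.  As `ℓ` does not divide the
degree of `L`, some place `v` of `L` above `q` has a ramification index prime to `ℓ`.  So
`v(j(E₀)) = -e(v)` is negative and prime to `ℓ`, and by the local theorem of the starting library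
(`Y673/FM`, which includes the places above `ℓ`) `v(j(E')) < 0`; therefore `q` divides every denominator
of `E'`.  So the product `s` of these `q` divides `d`.  For almost all `E₀` one has `D₀ = s m` with `m` at
most `54 T^η`, and `D₀` belongs to a set of at most `T^(5-c+3η)` integers.  Almost all curves of the box
share their discriminant only with `(A, -B)`.
-/

set_option autoImplicit false

open NumberField Filter Topology
open scoped Classical

namespace Pool.Agent.Results.MP_4a0cc8_nt.SparseDenominators

section
variable {L : Type} [Field L]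

/-- The curve `y² = x³ + Ax + B` over `L`. -/
def curve (A B : L) : WeierstrassCurve L := ⟨0, 0, 0, A, B⟩

/-- The group of its points over the algebraic closure of `L`. -/
abbrev Points (A B : L) : Type := ((curve A B).baseChange (AlgebraicClosure L)).toAffine.Point

/-- The action of an `L`-automorphism `σ` of the algebraic closure on the points. -/
noncomputable def galois (A B : L) (σ : AlgebraicClosure L ≃ₐ[L] AlgebraicClosure L) :
    Points A B →+ Points A B :=
  WeierstrassCurve.Affine.Point.map (σ : AlgebraicClosure L →ₐ[L] AlgebraicClosure L)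

/-- The curves have the same `n`-division field over `L`: an automorphism fixes all points killed by
`n` of the first if and only if it fixes all points killed by `n` of the second. -/
def SameDivisionField (n : ℕ) (A B A' B' : L) : Prop :=
  ∀ σ : AlgebraicClosure L ≃ₐ[L] AlgebraicClosure L,
    (∀ P : Points A B, n • P = 0 → galois A B σ P = P) ↔
      (∀ P : Points A' B', n • P = 0 → galois A' B' σ P = P)

/-- The `n`-torsion modules are isomorphic over `L`: some map between the groups of points restricts to
a bijective additive map of the points killed by `n` which commutes with the Galois group of `L`. -/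
def Congruent (n : ℕ) (A B A' B' : L) : Prop :=
  ∃ f : Points A B → Points A' B', (∀ P Q, n • P = 0 → n • Q = 0 → f (P + Q) = f P + f Q) ∧
    Set.BijOn f {P | n • P = 0} {Q | n • Q = 0} ∧
    ∀ (σ : AlgebraicClosure L ≃ₐ[L] AlgebraicClosure L) (P : Points A B), n • P = 0 →
      f (galois A B σ P) = galois A' B' σ (f P)

/-- The invariant of `y² = x³ + Ax + B`. -/
noncomputable def jInvariant (A B : L) : L := 6912 * A ^ 3 / (4 * A ^ 3 + 27 * B ^ 2)

end

/-- The equations with `|A| ≤ T²` and `|B| ≤ T³`. -/
def Box (T : ℕ) : Set (ℤ × ℤ) := {p | |p.1| ≤ (T : ℤ) ^ 2 ∧ |p.2| ≤ (T : ℤ) ^ 3}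

/-- The discriminant, up to the factor `-16`. -/
def disc (p : ℤ × ℤ) : ℤ := 4 * p.1 ^ 3 + 27 * p.2 ^ 2

/-- The height of `y² = x³ + Ax + B`, `p = (A, B)`. -/
def height (p : ℤ × ℤ) : ℤ := max (4 * |p.1| ^ 3) (27 * p.2 ^ 2)

/-- For some prime `ℓ ≥ 13` and some number field `L` of degree prime to `ℓ` and less than
`(ℓ² - 1) / 8` there are elliptic curves over `L` with the same `ℓ`-division field, the first one with
the invariant of `y² = x³ + Ax + B`, `p = (A, B)`, the second one with an invariant whose product with
`d` is an algebraic integer. -/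
def HasPartner (p : ℤ × ℤ) (d : ℤ) : Prop :=
  ∃ ℓ : ℕ, ℓ.Prime ∧ 13 ≤ ℓ ∧ ∃ (L : Type) (_ : Field L) (_ : NumberField L),
    ¬ ℓ ∣ Module.finrank ℚ L ∧ 8 * Module.finrank ℚ L < ℓ ^ 2 - 1 ∧ ∃ A B A' B' : L,
      4 * A ^ 3 + 27 * B ^ 2 ≠ 0 ∧ 4 * A' ^ 3 + 27 * B' ^ 2 ≠ 0 ∧
      jInvariant A B = jInvariant (p.1 : L) (p.2 : L) ∧
      IsIntegral ℤ ((d : L) * jInvariant A' B') ∧ SameDivisionField ℓ A B A' B'

theorem hasPartner {p : ℤ × ℤ} {d : ℤ} (h : HasPartner p d) : Pool.Agent.Q13.FS.PartF d p := by
  obtain ⟨ℓ, hℓ, h13, L, iF, iN, hn, hL, A, B, A', B', hD, hD', hj, hint, hF⟩ := h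
  refine ⟨ℓ, hℓ, h13, L, iF, iN, hn, hL, A, B, A', B', hD, hD', hj.trans ?_, hint, hF⟩
  unfold jInvariant Pool.Agent.W275.FM.dsc
  push_cast
  rfl

/-- **100% of the curves over `ℚ` have no partner over any number field of moderate degree with a
denominator in a sparse set.** -/
theorem result :
    (∀ c K ε : ℝ, 0 < c → 0 < ε → ∃ T₀ : ℕ, ∀ T : ℕ, T₀ ≤ T →
      ∀ D : Finset ℤ, (D.card : ℝ) ≤ (T : ℝ) ^ (5 - c) → (∀ d ∈ D, (|d| : ℝ) ≤ (T : ℝ) ^ K) →
        (({p | p ∈ Box T ∧ disc p ≠ 0 ∧ ∃ d ∈ D, d ≠ 0 ∧ HasPartner p d} :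
          Set (ℤ × ℤ)).ncard : ℝ) ≤ ε * ((Box T).ncard : ℝ)) ∧
    (∀ (S : Set ℕ) (β θ C : ℝ), 0 < β → 0 < θ → 6 * β * θ < 5 →
      (∀ X : ℝ, 1 ≤ X → (({d | d ∈ S ∧ (d : ℝ) ≤ X} : Set ℕ).ncard : ℝ) ≤ C * X ^ β) →
      Tendsto (fun T : ℕ => (({p | p ∈ Box T ∧ disc p ≠ 0 ∧
          ∀ d ∈ S, d ≠ 0 → (d : ℝ) ≤ (height p : ℝ) ^ θ → ¬ HasPartner p d} :
            Set (ℤ × ℤ)).ncard : ℝ) / ((Box T).ncard : ℝ)) atTop (𝓝 1)) ∧
    (∀ (L : Type) [Field L] (n : ℕ) (A B A' B' : L), Congruent n A B A' B' →
      SameDivisionField n A B A' B') := by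
  refine ⟨fun c K ε hc hε => ?_, fun S β θ C hβ hθ hβθ hS => ?_, ?_⟩
  · obtain ⟨T₀, h⟩ := Pool.Agent.Q13.FS.fields c K ε hc hε
    refine ⟨T₀, fun T hT D hDc hD => ?_⟩
    refine le_trans ?_ ((h T hT D hDc hD).trans
      (mul_le_mul_of_nonneg_left (Pool.Agent.Q13.FS.box_ge T) hε.le))
    refine Nat.cast_le.2 (Set.ncard_le_ncard ?_
      ((Pool.Agent.W275.FM.Bx_finite T).subset fun p hp => hp.1))
    rintro p ⟨hp, hd, d, hdD, hd0, hP⟩
    exact ⟨hp, hd, d, hdD, hd0, hasPartner hP⟩
  · have h := Pool.Agent.Q13.FS.lim_den S β θ C hβ hθ hβθ hS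
    refine tendsto_of_tendsto_of_tendsto_of_le_of_le h tendsto_const_nhds ?_ ?_
    · intro T
      refine div_le_div_of_nonneg_right ?_ (Nat.cast_nonneg _)
      refine Nat.cast_le.2 (Set.ncard_le_ncard ?_
        ((Pool.Agent.W275.FM.Bx_finite T).subset fun p hp => hp.1))
      rintro p ⟨hp, hd, hall⟩
      exact ⟨hp, hd, fun d hdS hd0 hle hP => hall d hdS hd0 hle (hasPartner hP)⟩
    · intro T
      refine div_le_one_of_le₀ ?_ (Nat.cast_nonneg _)
      exact Nat.cast_le.2 (Set.ncard_le_ncard (fun p hp => hp.1)
        (Pool.Agent.W275.FM.Bx_finite T))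
  · rintro L _ n A B A' B' ⟨f, -, h1, h2⟩ σ
    constructor
    · intro h Q hQ
      obtain ⟨P, hP, rfl⟩ := h1.surjOn (show Q ∈ {Q | n • Q = 0} from hQ)
      rw [← h2 σ P hP, h P hP]
    · intro h P hP
      have h3 : n • galois A B σ P = 0 := by
        rw [← map_nsmul]
        have : n • P = 0 := hP
        rw [this, map_zero]
      refine h1.injOn (show galois A B σ P ∈ {P | n • P = 0} from h3)
        (show P ∈ {P | n • P = 0} from hP) ?_
      rw [h2 σ P hP]
      exact h _ (h1.mapsTo (show P ∈ {P | n • P = 0} from hP))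

end Pool.Agent.Results.MP_4a0cc8_nt.SparseDenominators
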